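import Mathlib
import Pool.Agent.H33.G.R_seed8.Helper112.LS

open Finset

namespace Pool.Agent.Helper112

namespace MLS

/-- the additive character on `ZMod f`. -/
noncomputable def T (f : ℕ) [NeZero f] (N : ℕ) (α : ℕ → ℂ) (a : ZMod f) : ℂ :=
  ∑ n ∈ Icc 1 N, α n * ZMod.stdAddChar (a * (n : ZMod f))

lemma sum_char_T (f : ℕ) [NeZero f] (N : ℕ) (α : ℕ → ℂ) {χ : DirichletCharacter ℂ f}
    (hχ : χ.IsPrimitive) :
    ∑ a : ZMod f, χ⁻¹ a * T f N α a =
      (∑ n ∈ Icc 1 N, α n * χ (n : ZMod f)) * gaussSum χ⁻¹ (ZMod.stdAddChar : AddChar (ZMod f) ℂ) := by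
  have hinv : (χ⁻¹).IsPrimitive := by
    rw [DirichletCharacter.isPrimitive_def, DirichletCharacter.conductor_inv]
    exact hχ
  unfold T
  simp_rw [mul_sum]
  rw [sum_comm, sum_mul]
  apply sum_congr rfl
  intro n _
  have h := gaussSum_mulShift_of_isPrimitive (ZMod.stdAddChar : AddChar (ZMod f) ℂ) hinv (n : ZMod f)
  rw [inv_inv] at h
  rw [mul_assoc, ← h, gaussSum, mul_sum]
  apply sum_congr rfl
  intro a _
  rw [AddChar.mulShift_apply, mul_comm a]
  ring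

lemma parseval (f : ℕ) [NeZero f] (Φ : ZMod f → ℂ) :
    ∑ n : ZMod f, ‖∑ a : ZMod f, Φ a * ZMod.stdAddChar (n * a)‖ ^ 2 =
      f * ∑ a : ZMod f, ‖Φ a‖ ^ 2 := by
  have key : ∑ n : ZMod f, (∑ a : ZMod f, Φ a * ZMod.stdAddChar (n * a)) *
      (starRingEnd ℂ) (∑ a : ZMod f, Φ a * ZMod.stdAddChar (n * a)) =
      f * ∑ a : ZMod f, Φ a * (starRingEnd ℂ) (Φ a) := by
    simp_rw [map_sum, sum_mul_sum]
    rw [sum_comm]
    rw [mul_sum]
    apply sum_congr rfl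
    intro a _
    rw [sum_comm]
    have h1 : ∀ b : ZMod f, ∑ n : ZMod f, Φ a * ZMod.stdAddChar (n * a) *
        (starRingEnd ℂ) (Φ b * ZMod.stdAddChar (n * b)) =
        Φ a * (starRingEnd ℂ) (Φ b) * if a = b then (f : ℂ) else 0 := by
      intro b
      have h2 : ∀ n : ZMod f, Φ a * ZMod.stdAddChar (n * a) *
        (starRingEnd ℂ) (Φ b * ZMod.stdAddChar (n * b)) =
        Φ a * (starRingEnd ℂ) (Φ b) * ZMod.stdAddChar (n * (a - b)) := by
        intro n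
        rw [(starRingEnd ℂ).map_mul, ← AddChar.map_neg_eq_conj, mul_sub, sub_eq_add_neg,
          AddChar.map_add_eq_mul]
        ring
      simp_rw [h2]
      rw [← mul_sum, AddChar.sum_mulShift (a - b) (ZMod.isPrimitive_stdAddChar f)]
      simp [sub_eq_zero]
    simp_rw [h1]
    simp
    ring
  have e1 : ∀ z : ℂ, z * (starRingEnd ℂ) z = ((‖z‖ ^ 2 : ℝ) : ℂ) := by
    intro z
    rw [Complex.mul_conj, Complex.normSq_eq_norm_sq]
  simp_rw [e1] at key
  exact_mod_cast key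

lemma norm_char (f : ℕ) [NeZero f] (χ : DirichletCharacter ℂ f) (a : ZMod f) :
    ‖χ a‖ = if IsUnit a then 1 else 0 := by
  split_ifs with h
  · obtain ⟨u, rfl⟩ := h
    exact χ.unit_norm_eq_one u
  · rw [χ.map_nonunit h, norm_zero]

lemma sum_norm_char (f : ℕ) [NeZero f] (χ : DirichletCharacter ℂ f) :
    ∑ a : ZMod f, ‖χ a‖ ^ 2 = Nat.totient f := by
  classical
  simp_rw [norm_char]
  have : ∀ a : ZMod f, ((if IsUnit a then (1:ℝ) else 0) ^ 2) = if IsUnit a then 1 else 0 := by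
    intro a; split_ifs <;> simp
  simp_rw [this]
  rw [sum_boole, ← ZMod.card_units_eq_totient f]
  congr 1
  symm
  apply card_bij (fun (a : (ZMod f)ˣ) _ => (a : ZMod f))
  · intro a _; simp
  · intro a _ b _ hab; exact Units.ext hab
  · intro b hb
    rw [mem_filter] at hb
    exact ⟨hb.2.unit, mem_univ _, rfl⟩

lemma norm_gauss (f : ℕ) [NeZero f] {χ : DirichletCharacter ℂ f} (hχ : χ.IsPrimitive) :
    ‖gaussSum χ (ZMod.stdAddChar : AddChar (ZMod f) ℂ)‖ ^ 2 = f := by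
  have h := parseval f (fun a => χ a)
  rw [sum_norm_char] at h
  have h1 : ∀ n : ZMod f, ∑ a : ZMod f, χ a * ZMod.stdAddChar (n * a) =
      χ⁻¹ n * gaussSum χ (ZMod.stdAddChar : AddChar (ZMod f) ℂ) := by
    intro n
    rw [← gaussSum_mulShift_of_isPrimitive _ hχ n]
    rfl
  simp_rw [h1, norm_mul, mul_pow] at h
  rw [← sum_mul, sum_norm_char, mul_comm] at h
  have h0 : (Nat.totient f : ℝ) ≠ 0 := by
    have := Nat.totient_pos.mpr (NeZero.pos f)
    positivity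
  exact mul_right_cancel₀ h0 h

lemma sum_all (f : ℕ) [NeZero f] (g : ZMod f → ℂ) :
    ∑ χ : DirichletCharacter ℂ f, ‖∑ a : ZMod f, χ⁻¹ a * g a‖ ^ 2 =
      Nat.totient f * ∑ a : (ZMod f)ˣ, ‖g a‖ ^ 2 := by
  classical
  have hu : ∀ χ : DirichletCharacter ℂ f, ∑ a : ZMod f, χ⁻¹ a * g a =
      ∑ a : (ZMod f)ˣ, χ⁻¹ (a : ZMod f) * g a := by
    intro χ
    have := sum_filter_add_sum_filter_not (univ : Finset (ZMod f)) (fun a => IsUnit a)
      (fun a => χ⁻¹ a * g a)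
    rw [← this]
    have h0 : ∑ a ∈ univ.filter (fun a : ZMod f => ¬ IsUnit a), χ⁻¹ a * g a = 0 := by
      apply sum_eq_zero
      intro a ha
      rw [mem_filter] at ha
      rw [MulChar.map_nonunit _ ha.2, zero_mul]
    rw [h0, add_zero]
    symm
    apply sum_bij (fun (a : (ZMod f)ˣ) _ => (a : ZMod f))
    · intro a _; simp
    · intro a _ b _ hab; exact Units.ext hab
    · intro b hb
      rw [mem_filter] at hb
      exact ⟨hb.2.unit, mem_univ _, rfl⟩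
    · intro a _; rfl
  simp_rw [hu]
  have key : ∑ χ : DirichletCharacter ℂ f, (∑ a : (ZMod f)ˣ, χ⁻¹ (a : ZMod f) * g a) *
      (starRingEnd ℂ) (∑ a : (ZMod f)ˣ, χ⁻¹ (a : ZMod f) * g a) =
      Nat.totient f * ∑ a : (ZMod f)ˣ, g a * (starRingEnd ℂ) (g a) := by
    simp_rw [map_sum, sum_mul_sum]
    rw [sum_comm, mul_sum]
    apply sum_congr rfl
    intro a _
    rw [sum_comm]
    have h1 : ∀ b : (ZMod f)ˣ, ∑ χ : DirichletCharacter ℂ f, χ⁻¹ (a : ZMod f) * g a *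
        (starRingEnd ℂ) (χ⁻¹ (b : ZMod f) * g b) =
        g a * (starRingEnd ℂ) (g b) * if a = b then (Nat.totient f : ℂ) else 0 := by
      intro b
      have h2 : ∀ χ : DirichletCharacter ℂ f, χ⁻¹ (a : ZMod f) * g a *
        (starRingEnd ℂ) (χ⁻¹ (b : ZMod f) * g b) =
        g a * (starRingEnd ℂ) (g b) * (χ ((a : ZMod f)⁻¹) * χ (b : ZMod f)) := by
        intro χ
        have h3 : (starRingEnd ℂ) (χ⁻¹ (b : ZMod f)) = χ (b : ZMod f) := by
          rw [← RCLike.star_def, MulChar.star_apply', inv_inv]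
        have h4 : χ⁻¹ (a : ZMod f) = χ ((a : ZMod f)⁻¹) := by
          rw [MulChar.inv_apply, ZMod.inv_coe_unit, Ring.inverse_unit]
        rw [map_mul, h3, h4]
        ring
      simp_rw [h2]
      rw [← mul_sum, DirichletCharacter.sum_char_inv_mul_char_eq ℂ a.isUnit]
      simp only [Units.val_inj]
    simp_rw [h1]
    simp
    ring
  have e1 : ∀ z : ℂ, z * (starRingEnd ℂ) z = ((‖z‖ ^ 2 : ℝ) : ℂ) := by
    intro z
    rw [Complex.mul_conj, Complex.normSq_eq_norm_sq]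
  simp_rw [e1] at key
  exact_mod_cast key

open Classical in
lemma prim_bound (f : ℕ) [NeZero f] (N : ℕ) (α : ℕ → ℂ) :
    ((f : ℝ) / (Nat.totient f : ℝ)) *
      ∑ χ ∈ (univ : Finset (DirichletCharacter ℂ f)).filter (fun χ => χ.IsPrimitive),
        ‖∑ n ∈ Icc 1 N, α n * χ (n : ZMod f)‖ ^ 2 ≤ ∑ a : (ZMod f)ˣ, ‖T f N α a‖ ^ 2 := by
  have h0 : (0:ℝ) < (Nat.totient f : ℝ) := by
    have := Nat.totient_pos.mpr (NeZero.pos f)
    positivity
  rw [div_mul_eq_mul_div, div_le_iff₀ h0, mul_comm _ (Nat.totient f : ℝ), ← sum_all, mul_sum]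
  have h1 : ∑ χ ∈ (univ : Finset (DirichletCharacter ℂ f)).filter (fun χ => χ.IsPrimitive),
      (f : ℝ) * ‖∑ n ∈ Icc 1 N, α n * χ (n : ZMod f)‖ ^ 2 =
      ∑ χ ∈ (univ : Finset (DirichletCharacter ℂ f)).filter (fun χ => χ.IsPrimitive),
        ‖∑ a : ZMod f, χ⁻¹ a * T f N α a‖ ^ 2 := by
    apply sum_congr rfl
    intro χ hχ
    rw [mem_filter] at hχ
    have hinv : (χ⁻¹).IsPrimitive := by
      rw [DirichletCharacter.isPrimitive_def, DirichletCharacter.conductor_inv]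
      exact hχ.2
    rw [sum_char_T f N α hχ.2, norm_mul, mul_pow, norm_gauss f hinv, mul_comm]
  rw [h1]
  exact sum_le_sum_of_subset_of_nonneg (filter_subset _ _) fun _ _ _ => by positivity

lemma T_eq (f : ℕ) [NeZero f] (N : ℕ) (α : ℕ → ℂ) (a : ℕ) :
    T f N α (a : ZMod f) = ∑ n ∈ Icc 1 N, α n * ee (n * a / f) := by
  unfold T
  apply sum_congr rfl
  intro n _
  congr 1
  have : ((a : ZMod f) * (n : ZMod f)) = (((a * n : ℕ) : ℤ) : ZMod f) := by push_cast; rfl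
  rw [this, ZMod.stdAddChar_coe]
  unfold ee
  congr 1
  push_cast
  ring

lemma sum_units (f : ℕ) [NeZero f] (N : ℕ) (α : ℕ → ℂ) :
    ∑ a : (ZMod f)ˣ, ‖T f N α a‖ ^ 2 =
      ∑ a ∈ (range f).filter (fun a => a.Coprime f), ‖∑ n ∈ Icc 1 N, α n * ee (n * a / f)‖ ^ 2 := by
  apply sum_bij (fun (a : (ZMod f)ˣ) _ => (a : ZMod f).val)
  · intro a _
    rw [mem_filter, mem_range]
    exact ⟨ZMod.val_lt _, ZMod.val_coe_unit_coprime a⟩
  · intro a _ b _ hab
    exact Units.ext (ZMod.val_injective f hab)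
  · intro b hb
    rw [mem_filter, mem_range] at hb
    refine ⟨ZMod.unitOfCoprime b hb.2, mem_univ _, ?_⟩
    rw [ZMod.coe_unitOfCoprime, ZMod.val_natCast, Nat.mod_eq_of_lt hb.1]
  · intro a _
    rw [← T_eq]
    congr 3
    simp

end MLS

open Classical in
/-- T2. multiplicative large sieve (from T1) -/
theorem mult_large_sieve (N F : ℕ) (α : ℕ → ℂ) :
    ∑ f ∈ Icc 1 F, ((f : ℝ) / (Nat.totient f : ℝ)) *
      ∑ χ ∈ (univ : Finset (DirichletCharacter ℂ f)).filter (fun χ => χ.IsPrimitive),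
        ‖∑ n ∈ Icc 1 N, α n * χ (n : ZMod f)‖ ^ 2
      ≤ 6 * (N + (F : ℝ) ^ 2) * ∑ n ∈ Icc 1 N, ‖α n‖ ^ 2 := by
  refine le_trans (sum_le_sum ?_) (additive_large_sieve N F α)
  intro f hf
  rw [mem_Icc] at hf
  have : NeZero f := ⟨by omega⟩
  rw [← MLS.sum_units]
  exact MLS.prim_bound f N α

end Pool.Agent.Helper112

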